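import Pool.Agent.Helper46.SP.Sys

/-!
# (F2b) The continuum splitting property is forced
-/

open Cardinal Set
open scoped Pointwise

namespace Pool.Agent.Helper27.SPR

open Pool.Agent.Helper46 Pool.Agent.Helper46.SP Pool.Agent.Helper46.SP.Name

variable {Q : Par} {S : CodeSys Q}

/-- `q ⊩ a e b` -/
def R (e a b : Name (P0 Q × Cnd S)) (q : P0 Q × Cnd S) : Prop :=
  FMem (Name.opair a b) e q

theorem pair_congr {P : Type} [Preorder P] [OrderTop P] (hB : BasicEq P) {a a' b b' : Name P}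
    {p : P} (h : FEq a a' p) (h' : FEq b b' p) : FEq (Name.pair a b) (Name.pair a' b') p := by
  unfold Name.pair
  rw [FEq]
  constructor
  · intro i q hq _
    refine ⟨q, le_rfl, i, le_top, ?_⟩
    by_cases hi : i.down
    · rw [if_pos hi, if_pos hi]; exact hB.mono _ _ _ _ h hq
    · rw [if_neg hi, if_neg hi]; exact hB.mono _ _ _ _ h' hq
  · intro i q hq _
    refine ⟨q, le_rfl, i, le_top, ?_⟩
    by_cases hi : i.down
    · rw [if_pos hi, if_pos hi]; exact hB.mono _ _ _ _ h hq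
    · rw [if_neg hi, if_neg hi]; exact hB.mono _ _ _ _ h' hq

theorem opair_congr {P : Type} [Preorder P] [OrderTop P] (hB : BasicEq P) {a a' b b' : Name P}
    {p : P} (h : FEq a a' p) (h' : FEq b b' p) : FEq (Name.opair a b) (Name.opair a' b') p :=
  pair_congr hB (pair_congr hB h h) (pair_congr hB h h')

theorem R_congr (hB : BasicEq (P0 Q × Cnd S)) {e a b a' b' : Name (P0 Q × Cnd S)}
    {q : P0 Q × Cnd S} (h : FEq a a' q) (h' : FEq b b' q) (hR : R e a b q) : R e a' b' q :=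
  hB.memCongr _ _ _ _ _ (opair_congr hB h h') (hB.refl _ _) hR

theorem R_mono (hB : BasicEq (P0 Q × Cnd S)) {e a b : Name (P0 Q × Cnd S)}
    {q r : P0 Q × Cnd S} (hR : R e a b q) (h : r ≤ q) : R e a b r :=
  hB.memMono _ _ _ _ hR h

theorem R_dense (hB : BasicEq (P0 Q × Cnd S)) {e a b : Name (P0 Q × Cnd S)}
    {p : P0 Q × Cnd S} (h : ∀ q ≤ p, ∃ r ≤ q, R e a b r) : R e a b p :=
  hB.memDense _ _ _ h

theorem act_pair {g : Grp Q} (a b : Name (P0 Q × Cnd S)) :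
    act g (Name.pair a b) = Name.pair (act g a) (act g b) := by
  unfold Name.pair
  rw [act]
  congr 1
  · funext t
    by_cases ht : t.down
    · rw [if_pos ht, if_pos ht]
    · rw [if_neg ht, if_neg ht]
  · funext t
    exact (sys S).smul_top g

theorem act_opair {g : Grp Q} (a b : Name (P0 Q × Cnd S)) :
    act g (Name.opair a b) = Name.opair (act g a) (act g b) := by
  unfold Name.opair
  rw [act_pair, act_pair, act_pair]

theorem R_act (hB : BasicEq (P0 Q × Cnd S)) (hF : ForcesFacts (sys S)) (hR : RealFacts S)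
    {e : Name (P0 Q × Cnd S)} {g : Grp Q} (he : FEq (act g e) e ⊤) {x y : RN Q}
    {q : P0 Q × Cnd S} (h : R e (rn S x) (rn S y) q) :
    R e (rn S (g • x)) (rn S (g • y)) (g • q) := by
  have h1 := hF.act (Fml.mem 0 1 : Fml 2) (Fin.cons (Name.opair (rn S x) (rn S y))
    (Fin.cons e Fin.elim0)) q g h
  have h2 : FMem (act g (Name.opair (rn S x) (rn S y))) (act g e) (g • q) := h1
  rw [act_opair] at h2
  refine hB.memCongr _ _ _ _ _ (opair_congr hB ?_ ?_) ?_ h2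
  · exact hB.mono _ _ _ _ (hR.smul g x) le_top
  · exact hB.mono _ _ _ _ (hR.smul g y) le_top
  · exact hB.mono _ _ _ _ he le_top

/-- The set of conditions forcing `x e y`. -/
def bb (e : Name (P0 Q × Cnd S)) (x y : RN Q) : Set (P0 Q × RC S) :=
  {w | ∃ h : w.2 ∈ CC (⊤ : Stg Q), R e (rn S x) (rn S y) (w.1, ⟨w.2, h⟩)}

theorem mem_bb {e : Name (P0 Q × Cnd S)} {x y : RN Q} {p : P0 Q} {c : Cnd S} :
    (p, c.1) ∈ bb e x y ↔ R e (rn S x) (rn S y) (p, c) :=
  ⟨fun ⟨_, h⟩ => h, fun h => ⟨c.2, h⟩⟩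

theorem regB_bb (hB : BasicEq (P0 Q × Cnd S)) (e : Name (P0 Q × Cnd S)) (x y : RN Q) :
    RegB ⊤ (bb e x y) := by
  refine ⟨fun w hw => hw.1, ?_, ?_⟩
  · rintro ⟨p, c⟩ ⟨hc, h⟩ q hq d hd hcd
    exact ⟨hd, R_mono hB h ⟨hq, hcd⟩⟩
  · intro p c hc H
    refine ⟨hc, R_dense hB ?_⟩
    rintro ⟨q, d⟩ ⟨hq, hd⟩
    obtain ⟨r, hr, d', hd', hdd', h⟩ := H q hq d.1 d.2 hd
    exact ⟨(r, ⟨d', hd'⟩), ⟨hr, hdd'⟩, h.2⟩

theorem bb_smul (hB : BasicEq (P0 Q × Cnd S)) (hF : ForcesFacts (sys S)) (hR : RealFacts S)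
    {e : Name (P0 Q × Cnd S)} {g : Grp Q} (he : FEq (act g e) e ⊤) {x y : RN Q}
    {w : P0 Q × RC S} (h : w ∈ bb e x y) : g • w ∈ bb e (g • x) (g • y) := by
  obtain ⟨hc, h⟩ := h
  exact ⟨CC_smul _ g _ hc, R_act hB hF hR he h⟩

theorem tail_bb (hT : ST_tail) (hB : BasicEq (P0 Q × Cnd S)) (hF : ForcesFacts (sys S))
    (hR : RealFacts S) (hRN : RNFacts Q)
    {e : Name (P0 Q × Cnd S)} {ν : Q.Lev} (he : ∀ g : Grp Q, Fixes g (below ν) →
      FEq (act g e) e ⊤) {x y : RN Q} {p : P0 Q} {c : RC S} (h : (p, c) ∈ bb e x y) :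
    (p, cut c ν) ∈ bb e x y := by
  refine hT Q S ⊤ ν (bb e x y) (regB_bb hB e x y) ?_ p c h
  intro g hg w hw
  have h1 := bb_smul hB hF hR (he g hg) hw
  have key : ∀ u : RN Q, g • u = u := by
    intro u
    obtain ⟨z, _, hz, hu⟩ := hRN.over_univ u
    have := hRN.smul_congr g 1 u z hu (fun i hi => by rw [one_smul]; exact hg i (hz _ hi))
    rw [this, one_smul]
  rwa [key, key] at h1

/-- the part of stage `ν` -/
def aa (e : Name (P0 Q × Cnd S)) (ν : Q.Lev) (x y : RN Q) : Set (P0 Q × RC S) :=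
  {w | w ∈ bb e x y ∧ w.2 ∈ CC (ν : Stg Q)}

theorem regB_aa (hC : CFacts S) (hB : BasicEq (P0 Q × Cnd S)) (e : Name (P0 Q × Cnd S))
    (ν : Q.Lev) (x y : RN Q) :
    RegB (ν : Stg Q) (aa e ν x y) := by
  have hb := regB_bb hB e x y
  refine ⟨fun w hw => hw.2, ?_, ?_⟩
  · rintro ⟨p, c⟩ ⟨h, _⟩ q hq d hd hcd
    exact ⟨hb.down _ h q hq d (hC.mono _ _ le_top hd) hcd, hd⟩
  · intro p c hc H
    refine ⟨hb.dense p c (hC.mono _ _ le_top hc) ?_, hc⟩
    intro p' hp' c' hc' hcc'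
    have h1 : cut c' (ν : Stg Q) ∈ (CC (ν : Stg Q) : Set (RC S)) := hC.cut _ _ _ hc'
    have h2 : c ⊆ cut c' (ν : Stg Q) := fun t ht => ⟨hcc' ht, (mem_CC.1 hc).2.1 t ht⟩
    obtain ⟨p'', hp'', c'', hc'', h3, h4, _⟩ := H p' hp' _ h1 h2
    obtain ⟨h5, _⟩ := hC.amalg ⊤ ν c' c'' hc' hc'' le_top h3
    refine ⟨p'', hp'', c' ∪ c'', h5, Set.subset_union_left, ?_⟩
    exact hb.down _ h4 p'' le_rfl _ h5 Set.subset_union_right

/-- the code `A` is a name of the class of `x` -/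
def IsA (e : Name (P0 Q × Cnd S)) (ν : Q.Lev) (x : RN Q) (A : S.U) : Prop :=
  SN ν A ∧ ∀ (y : RN Q) (p : P0 Q) (c : RC S), c ∈ CC (ν : Stg Q) →
    (FM (CC (ν : Stg Q)) y (S.G A) p c ↔ (p, c) ∈ bb e x y)

theorem isA_smul (hB : BasicEq (P0 Q × Cnd S)) (hF : ForcesFacts (sys S)) (hR : RealFacts S)
    {e : Name (P0 Q × Cnd S)} {g : Grp Q} (he : FEq (act g e) e ⊤)
    (he' : FEq (act g⁻¹ e) e ⊤) {ν : Q.Lev} {x : RN Q} {A : S.U} (h : IsA e ν x A) :
    IsA e ν (g • x) (g • A) := by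
  refine ⟨IsSN_smul (fun g c hc => CC_smul _ g c hc) g h.1, ?_⟩
  intro y p c hc
  have h1 := FM_smul_iff (𝒞 := (CC (ν : Stg Q) : Set (RC S))) (fun g c hc => CC_smul _ g c hc) g
    (x := g⁻¹ • y) (T := S.G A) (p := g⁻¹ • p) (c := g⁻¹ • c)
  simp only [smul_inv_smul] at h1
  rw [S.G_smul, h1, h.2 _ _ _ (CC_smul _ g⁻¹ c hc)]
  constructor
  · intro h2
    have h3 := bb_smul hB hF hR he h2
    rw [smul_inv_smul] at h3
    have h4 : g • ((g⁻¹ • p, g⁻¹ • c) : P0 Q × RC S) = (p, c) := by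
      apply Prod.ext
      · exact smul_inv_smul g p
      · exact smul_inv_smul g c
    rwa [h4] at h3
  · intro h2
    have h3 := bb_smul hB hF hR he' h2
    rw [inv_smul_smul] at h3
    exact h3

theorem exists_isA (hG : ∀ ζ : Q.Lev, Gen S ζ) (hC : CFacts S) (hB : BasicEq (P0 Q × Cnd S))
    (hF : ForcesFacts (sys S)) (hR : RealFacts S) (hRN : RNFacts Q)
    {e : Name (P0 Q × Cnd S)} {ν : Q.Lev} {z : Set (Idx Q)} (hz : z ⊆ below (ν : Stg Q))
    (hzc : #z ≤ Q.κ ν) (he : ∀ g : Grp Q, Fixes g z → FEq (act g e) e ⊤) (x : RN Q) :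
    ∃ A : S.U, IsA e ν x A := by
  obtain ⟨zx, hzx, hzb, hx⟩ := hRN.over_univ x
  obtain ⟨A, h1, _, h3⟩ := hG ν (fun y => aa e ν x y) (fun y => regB_aa hC hB e ν x y) (by
      rintro y y' p c ⟨⟨hc, h⟩, hc'⟩ hy
      refine ⟨⟨hc, R_congr hB (hB.refl _ _) ?_ h⟩, hc'⟩
      exact (hR.feq y y' p ⟨c, hc⟩).2 hy) (z ∪ zx)
    (Set.union_subset hz (hzb _)) (by
      refine (Cardinal.mk_union_le _ _).trans ?_
      refine (add_le_add hzc ((Cardinal.le_aleph0_iff_set_countable.2 hzx).trans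
        (κ_inf ν))).trans ?_
      rw [Cardinal.add_eq_self (κ_inf _)]) (by
      rintro g hg y w ⟨hw, hw'⟩
      have h1 := bb_smul hB hF hR (he g (fun i hi => hg i (Or.inl hi))) hw
      have h2 : g • x = x := by
        have := hRN.smul_congr g 1 x zx hx
          (fun i hi => by rw [one_smul]; exact hg i (Or.inr hi))
        rw [this, one_smul]
      rw [h2] at h1
      exact ⟨h1, CC_smul _ g _ hw'⟩)
  refine ⟨A, h1, fun y p c hc => ?_⟩
  rw [h3 y p c hc]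
  exact ⟨fun h => h.1, fun h => ⟨h, hc⟩⟩

/-- the index type of the transversal -/
def TI (e : Name (P0 Q × Cnd S)) (l : Lab Q) : Type :=
  {w : RN Q × RN Q × Cnd S // ∃ A : S.U, IsA e l.1 w.1 A ∧ (A, l, w.2.1) ∈ w.2.2.1}

/-- the name of the transversal -/
def tr (e : Name (P0 Q × Cnd S)) (l : Lab Q) : Name (P0 Q × Cnd S) :=
  Name.mk (TI e l) (fun w => rn S w.1.2.1) (fun w => (⊤, w.1.2.2))

/-- the action on the index type -/
def TI.act (hB : BasicEq (P0 Q × Cnd S)) (hF : ForcesFacts (sys S)) (hR : RealFacts S)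
    {e : Name (P0 Q × Cnd S)} {l : Lab Q} {g : Grp Q} (he : FEq (Name.act g e) e ⊤)
    (he' : FEq (Name.act g⁻¹ e) e ⊤) (hl : g • l = l) (w : TI e l) : TI e l :=
  ⟨(g • w.1.1, g • w.1.2.1, g • w.1.2.2), by
    obtain ⟨A, h1, h2⟩ := w.2
    refine ⟨g • A, isA_smul hB hF hR he he' h1, ?_⟩
    have h3 : g • ((A, l, w.1.2.1) : Trip S) ∈ g • w.1.2.2.1 := Set.smul_mem_smul_set h2
    have h4 : g • ((A, l, w.1.2.1) : Trip S) = (g • A, l, g • w.1.2.1) := by
      apply Prod.ext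
      · rfl
      · apply Prod.ext
        · exact hl
        · rfl
    rw [h4] at h3
    exact h3⟩

theorem hs_tr (hB : BasicEq (P0 Q × Cnd S)) (hF : ForcesFacts (sys S)) (hR : RealFacts S)
    {e : Name (P0 Q × Cnd S)} {l : Lab Q} {z : Set (Idx Q)} (hz : SP.Small z)
    (he : ∀ g : Grp Q, Fixes g z → FEq (Name.act g e) e ⊤) : (sys S).IsHS (tr e l) := by
  unfold tr
  rw [SymSys.IsHS]
  refine ⟨fun w => hR.hs _, ?_⟩
  have hl : SP.Small ({lab l} : Set (Idx Q)) := by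
    obtain ⟨ν, hν⟩ := Q.lev_bdd {l.1} (Set.countable_singleton _)
    refine ⟨ν, ?_, ?_⟩
    · rintro i rfl ξ hξ
      have : l.1 = ξ := Option.some.inj hξ
      rw [← this]
      exact_mod_cast hν l.1 rfl
    · rw [Cardinal.mk_singleton]
      exact Cardinal.one_le_aleph0.trans (κ_inf ν)
  refine ⟨fixSub (z ∪ {lab l}), ⟨_, hz.union hl, le_rfl⟩, ?_⟩
  intro g hg
  have hg' : g⁻¹ ∈ fixSub (z ∪ {lab l} : Set (Idx Q)) := inv_mem hg
  have hgl : g • l = l := by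
    have := hg (lab l) (Or.inr rfl)
    have h2 : (some l.1, g (some l.1) l.2) = ((some l.1, l.2) : Idx Q) := this
    have h3 : g (some l.1) l.2 = l.2 := (Prod.ext_iff.1 h2).2
    apply Prod.ext
    · rfl
    · exact h3
  have hgl' : g⁻¹ • l = l := by rw [inv_smul_eq_iff, hgl]
  have e1 := he g (fun i hi => hg i (Or.inl hi))
  have e2 := he g⁻¹ (fun i hi => hg' i (Or.inl hi))
  rw [Name.act, FEq]
  constructor
  · intro i q _ hqi
    refine ⟨q, le_rfl, TI.act hB hF hR e1 e2 hgl i, ?_, ?_⟩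
    · exact ⟨le_top, hqi.2⟩
    · exact hB.mono _ _ _ _ (hR.smul g _) le_top
  · intro j q _ hqj
    refine ⟨q, le_rfl, TI.act hB hF hR e2 (by rw [inv_inv]; exact e1) hgl' j, ?_, ?_⟩
    · refine ⟨?_, ?_⟩
      · have : g • (⊤ : P0 Q) = ⊤ := P0.smul_top g
        show q.1 ≤ g • (⊤ : P0 Q)
        rw [this]
        exact le_top
      · show g • (g⁻¹ • j.1.2.2).1 ⊆ q.2.1
        rw [Cnd.smul_val, smul_inv_smul]
        exact hqj.2
    · have h := hR.smul g (g⁻¹ • j.1.2.1)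
      rw [smul_inv_smul] at h
      exact hB.mono _ _ _ _ h le_top

/-- the equivalence relation is forced to be an equivalence relation below `p0` -/
structure EqvAt (e : Name (P0 Q × Cnd S)) (p0 : P0 Q × Cnd S) : Prop where
  refl : ∀ (x : RN Q) (q : P0 Q × Cnd S), q ≤ p0 → R e (rn S x) (rn S x) q
  symm : ∀ (x y : RN Q) (q : P0 Q × Cnd S), q ≤ p0 → R e (rn S x) (rn S y) q →
    R e (rn S y) (rn S x) q
  trans : ∀ (x y z : RN Q) (q : P0 Q × Cnd S), q ≤ p0 → R e (rn S x) (rn S y) q →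
    R e (rn S y) (rn S z) q → R e (rn S x) (rn S z) q

section main

variable (hT : ST_tail) (hTot : ST_tot) (hG : ∀ ζ : Q.Lev, Gen S ζ) (hC : CFacts S)
  (hB : BasicEq (P0 Q × Cnd S)) (hF : ForcesFacts (sys S)) (hR : RealFacts S) (hRN : RNFacts Q)

include hT hC hB hF hR hRN

/-- the value of the choice function is in the class -/
theorem val_mem {e : Name (P0 Q × Cnd S)} {p0 : P0 Q × Cnd S} (hE : EqvAt e p0)
    {l : Lab Q} (he : ∀ g : Grp Q, Fixes g (below (l.1 : Stg Q)) → FEq (Name.act g e) e ⊤)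
    {q : P0 Q × Cnd S} (hq : q ≤ p0) {x v : RN Q} {A : S.U} (hA : IsA e l.1 x A)
    (hv : (A, l, v) ∈ q.2.1) : R e (rn S x) (rn S v) q := by
  have h1 : (q.1, q.2.1) ∈ bb e x x := mem_bb.2 (hE.refl x q hq)
  have h2 := tail_bb hT hB hF hR hRN he h1
  have hcut : cut q.2.1 (l.1 : Stg Q) ∈ (CC (l.1 : Stg Q) : Set (RC S)) := hC.cut _ _ _ q.2.2
  have h3 := (hA.2 x q.1 _ hcut).2 h2
  have hok := (mem_CC.1 q.2.2).2.2 l.1 (WithTop.coe_lt_top _)
  have h4 := hok.mem _ hv rfl q.1 _ hcut (Set.Subset.refl _) x h3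
  have h5 := (hA.2 v q.1 _ hcut).1 h4
  obtain ⟨h6, h7⟩ := h5
  exact R_mono hB h7 ⟨le_rfl, fun t ht => ht.1⟩

/-- two equivalent reals get the same value -/
theorem val_eq {e : Name (P0 Q × Cnd S)} {p0 : P0 Q × Cnd S} (hE : EqvAt e p0)
    {l : Lab Q} (he : ∀ g : Grp Q, Fixes g (below (l.1 : Stg Q)) → FEq (Name.act g e) e ⊤)
    {q : P0 Q × Cnd S} (hq : q ≤ p0) {x x' v v' : RN Q} {A A' : S.U} (hA : IsA e l.1 x A)
    (hA' : IsA e l.1 x' A') (hv : (A, l, v) ∈ q.2.1) (hv' : (A', l, v') ∈ q.2.1)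
    (hxx : R e (rn S x) (rn S x') q) : v.Feq v' q.1 := by
  have hcut : cut q.2.1 (l.1 : Stg Q) ∈ (CC (l.1 : Stg Q) : Set (RC S)) := hC.cut _ _ _ q.2.2
  have hok := (mem_CC.1 q.2.2).2.2 l.1 (WithTop.coe_lt_top _)
  refine hok.fn _ hv _ hv' rfl rfl q.1 _ hcut (Set.Subset.refl _) ?_
  intro p' hp' c' hc' hcc' y
  have key : ∀ (a a' : RN Q), R e (rn S a) (rn S a') q → (p', c') ∈ bb e a y →
      (p', c') ∈ bb e a' y := by
    intro a a' haa hy
    obtain ⟨h1, h2⟩ := hC.amalg ⊤ l.1 q.2.1 c' q.2.2 hc' le_top hcc'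
    let r : P0 Q × Cnd S := (p', ⟨q.2.1 ∪ c', h1⟩)
    have hr : r ≤ q := ⟨hp', Set.subset_union_left⟩
    have h3 : R e (rn S a) (rn S y) r := by
      obtain ⟨h4, h5⟩ := hy
      exact R_mono hB h5 ⟨le_rfl, Set.subset_union_right⟩
    have h4 : R e (rn S a') (rn S y) r :=
      hE.trans _ _ _ _ (hr.trans hq) (hE.symm _ _ _ (hr.trans hq) (R_mono hB haa hr)) h3
    have h5 := tail_bb hT hB hF hR hRN he (mem_bb.2 h4)
    have h6 : cut (q.2.1 ∪ c') (l.1 : Stg Q) = c' := h2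
    have h7 : cut r.2.1 (l.1 : Stg Q) = c' := h6
    rw [h7] at h5
    exact h5
  rw [hA.2 y p' c' hc', hA'.2 y p' c' hc']
  exact ⟨key x x' hxx, key x' x (hE.symm _ _ _ hq hxx)⟩

end main

theorem mem_reals (hB : BasicEq (P0 Q × Cnd S)) (hF : ForcesFacts (sys S))
    (hSF : SetFacts (sys S)) {r : Name (P0 Q × Cnd S)} (hr : (sys S).IsHS r)
    {p : P0 Q × Cnd S} (h : (sys S).Forces (Fml.isReals 0) (Fin.cons r Fin.elim0) p)
    {x : Name (P0 Q × Cnd S)} (hx : (sys S).IsHS x) :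
    FMem x r p ↔ ∀ z : Name (P0 Q × Cnd S), (sys S).IsHS z → ∀ q ≤ p, FMem z x q →
      FMem z Name.omega q := by
  unfold Fml.isReals at h
  rw [hF.ex] at h
  have key : ∀ q ≤ p, ∃ r' ≤ q, ∃ w, (sys S).IsHS w ∧ FEq w Name.omega r' ∧
      ∀ q2 ≤ r', FMem x r q2 ↔ ∀ z, (sys S).IsHS z → ∀ q3 ≤ q2, FMem z x q3 → FMem z w q3 := by
    intro q hq
    obtain ⟨r', hr', w, hw, h1⟩ := h q hq
    rw [SymSys.Forces] at h1
    obtain ⟨h2, h3⟩ := h1
    refine ⟨r', hr', w, hw, ?_, ?_⟩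
    · rw [hSF.isOmega] at h2
      · exact h2
      · intro i
        refine Fin.cases ?_ (fun j => ?_) i
        · exact hw
        · refine Fin.cases ?_ (fun j => ?_) j
          · exact hr
          · exact j.elim0
    · rw [SymSys.Forces] at h3
      have h4 := h3 x hx
      rw [hF.iff] at h4
      intro q2 hq2
      have h5 := h4 q2 hq2
      rw [SymSys.Forces, SymSys.Forces] at h5
      constructor
      · intro h6 z hz
        have h7 := h5.1 h6 z hz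
        rw [hF.imp] at h7
        exact h7
      · intro h6
        apply h5.2
        intro z hz
        rw [hF.imp]
        exact h6 z hz
  constructor
  · intro h1 z hz q hq hzx
    apply hB.memDense
    intro q1 hq1
    obtain ⟨r', hr', w, hw, h2, h3⟩ := key q1 (hq1.trans hq)
    refine ⟨r', hr', ?_⟩
    have h4 := (h3 r' le_rfl).1 (hB.memMono _ _ _ _ h1 (hr'.trans (hq1.trans hq))) z hz r' le_rfl
      (hB.memMono _ _ _ _ hzx (hr'.trans hq1))
    exact hB.memCongr _ _ _ _ _ (hB.refl _ _) h2 h4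
  · intro h1
    apply hB.memDense
    intro q1 hq1
    obtain ⟨r', hr', w, hw, h2, h3⟩ := key q1 hq1
    refine ⟨r', hr', (h3 r' le_rfl).2 ?_⟩
    intro z hz q3 hq3 h4
    have h5 := h1 z hz q3 (hq3.trans (hr'.trans hq1)) h4
    exact hB.memCongr _ _ _ _ _ (hB.refl _ _) (hB.symm _ _ _ (hB.mono _ _ _ _ h2 hq3)) h5

theorem st_F2b (hT : ST_tail) (hTot : ST_tot) (hCore : ST_core) (hCF : ST_cfacts) (hRN : ST_RN)
    (hBE : ST_basicEq.{0}) (hFF : ST_forcesFacts.{0}) (hSF : ST_setFacts.{0})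
    (hRF : ST_realFacts) : ST_spr := by
  intro Q S p
  have hB := hBE (P0 Q × Cnd S)
  have hF := hFF (P0 Q × Cnd S) (Grp Q) (sys S)
  have hS := hSF (P0 Q × Cnd S) (Grp Q) (sys S)
  have hR := hRF Q S
  have hC := hCF Q S
  have hN := hRN Q
  have hG : ∀ ζ : Q.Lev, Gen S ζ := fun ζ => ((hCore Q S).2 ζ).1
  unfold Fml.spr
  rw [SymSys.Forces]
  intro r hr
  rw [hF.imp]
  intro p1 hp1 hreals
  rw [SymSys.Forces]
  intro e he
  rw [hF.imp]
  intro p0 hp0 heqv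
  -- the semantic content of the hypotheses
  have hv2 : ∀ i : Fin 2, (sys S).IsHS
      ((Fin.cons e (Fin.cons r Fin.elim0) : Fin 2 → Name (P0 Q × Cnd S)) i) := by
    intro i
    refine Fin.cases ?_ (fun j => ?_) i
    · exact he
    · refine Fin.cases ?_ (fun j => ?_) j
      · exact hr
      · exact j.elim0
  have hv3 : ∀ x, (sys S).IsHS x → ∀ i : Fin 3, (sys S).IsHS
      ((Fin.cons x (Fin.cons e (Fin.cons r Fin.elim0)) : Fin 3 → Name (P0 Q × Cnd S)) i) := by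
    intro x hx i
    exact Fin.cases hx hv2 i
  have hv4 : ∀ x, (sys S).IsHS x → ∀ y, (sys S).IsHS y → ∀ i : Fin 4, (sys S).IsHS
      ((Fin.cons y (Fin.cons x (Fin.cons e (Fin.cons r Fin.elim0))) :
        Fin 4 → Name (P0 Q × Cnd S)) i) := by
    intro x hx y hy i
    exact Fin.cases hy (hv3 x hx) i
  have hv5 : ∀ x, (sys S).IsHS x → ∀ y, (sys S).IsHS y → ∀ z, (sys S).IsHS z →
      ∀ i : Fin 5, (sys S).IsHS
      ((Fin.cons z (Fin.cons y (Fin.cons x (Fin.cons e (Fin.cons r Fin.elim0)))) :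
        Fin 5 → Name (P0 Q × Cnd S)) i) := by
    intro x hx y hy z hz i
    exact Fin.cases hz (hv4 x hx y hy) i
  have hmr : ∀ (q : P0 Q × Cnd S), q ≤ p0 → ∀ x, (sys S).IsHS x →
      (FMem x r q ↔ ∀ z : Name (P0 Q × Cnd S), (sys S).IsHS z → ∀ q' ≤ q, FMem z x q' →
        FMem z Name.omega q') := by
    intro q hq x hx
    exact mem_reals hB hF hS hr (hF.mono _ _ _ _ hreals (hq.trans hp0)) hx
  have hrn : ∀ (x : RN Q) (q : P0 Q × Cnd S), q ≤ p0 → FMem (rn S x) r q := by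
    intro x q hq
    rw [hmr q hq _ (hR.hs x)]
    intro z _ q' _ hzx
    exact hR.sub x z q' hzx
  have hE : EqvAt e p0 := by
    unfold Fml.isEquivOn at heqv
    rw [SymSys.Forces, SymSys.Forces, SymSys.Forces, SymSys.Forces, SymSys.Forces] at heqv
    obtain ⟨h1, h2, h3⟩ := heqv
    refine ⟨?_, ?_, ?_⟩
    · intro x q hq
      have h4 := h1 (rn S x) (hR.hs x)
      rw [hF.imp] at h4
      have h5 := h4 q hq (hrn x q hq)
      rw [hS.relMem _ (hv3 _ (hR.hs x))] at h5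
      exact h5
    · intro x y q hq hxy
      have h4 := h2 (rn S x) (hR.hs x)
      rw [SymSys.Forces] at h4
      have h5 := h4 (rn S y) (hR.hs y)
      rw [hF.imp] at h5
      have h6 := h5 q hq (hrn x q hq)
      rw [hF.imp] at h6
      have h7 := h6 q le_rfl (hrn y q hq)
      rw [hF.imp] at h7
      have h8 := h7 q le_rfl (by
        rw [hS.relMem _ (hv4 _ (hR.hs x) _ (hR.hs y))]
        exact hxy)
      rw [hS.relMem _ (hv4 _ (hR.hs x) _ (hR.hs y))] at h8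
      exact h8
    · intro x y z q hq hxy hyz
      have h4 := h3 (rn S x) (hR.hs x)
      rw [SymSys.Forces] at h4
      have h4' := h4 (rn S y) (hR.hs y)
      rw [SymSys.Forces] at h4'
      have h5 := h4' (rn S z) (hR.hs z)
      rw [hF.imp] at h5
      have h6 := h5 q hq (hrn x q hq)
      rw [hF.imp] at h6
      have h7 := h6 q le_rfl (hrn y q hq)
      rw [hF.imp] at h7
      have h8 := h7 q le_rfl (hrn z q hq)
      rw [hF.imp] at h8
      have h9 := h8 q le_rfl (by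
        rw [hS.relMem _ (hv5 _ (hR.hs x) _ (hR.hs y) _ (hR.hs z))]
        exact hxy)
      rw [hF.imp] at h9
      have h10 := h9 q le_rfl (by
        rw [hS.relMem _ (hv5 _ (hR.hs x) _ (hR.hs y) _ (hR.hs z))]
        exact hyz)
      rw [hS.relMem _ (hv5 _ (hR.hs x) _ (hR.hs y) _ (hR.hs z))] at h10
      exact h10
  have hEg : ∀ x y z, (sys S).IsHS x → (sys S).IsHS y → (sys S).IsHS z → ∀ q ≤ p0,
      FMem x r q → FMem y r q → FMem z r q → R e x y q → R e y z q → R e x z q := by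
    unfold Fml.isEquivOn at heqv
    rw [SymSys.Forces, SymSys.Forces, SymSys.Forces, SymSys.Forces, SymSys.Forces] at heqv
    obtain ⟨_, _, h3⟩ := heqv
    intro x y z hx hy hz q hq hxr hyr hzr hxy hyz
    have h4 := h3 x hx
    rw [SymSys.Forces] at h4
    have h4' := h4 y hy
    rw [SymSys.Forces] at h4'
    have h5 := h4' z hz
    rw [hF.imp] at h5
    have h6 := h5 q hq hxr
    rw [hF.imp] at h6
    have h7 := h6 q le_rfl hyr
    rw [hF.imp] at h7
    have h8 := h7 q le_rfl hzr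
    rw [hF.imp] at h8
    have h9 := h8 q le_rfl (by
      rw [hS.relMem _ (hv5 _ hx _ hy _ hz)]
      exact hxy)
    rw [hF.imp] at h9
    have h10 := h9 q le_rfl (by
      rw [hS.relMem _ (hv5 _ hx _ hy _ hz)]
      exact hyz)
    rw [hS.relMem _ (hv5 _ hx _ hy _ hz)] at h10
    exact h10
  -- the support of `e`
  obtain ⟨z, hz, hez⟩ : ∃ z : Set (Idx Q), SP.Small z ∧
      ∀ g : Grp Q, Fixes g z → FEq (Name.act g e) e ⊤ := by
    have hsym : (sys S).IsSym e := by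
      cases e with
      | mk α A B =>
        rw [SymSys.IsHS] at he
        exact he.2
    obtain ⟨H, ⟨z, hz, hzH⟩, hH⟩ := hsym
    exact ⟨z, hz, fun g hg => hH g (hzH hg)⟩
  obtain ⟨ν, hzν, hzc⟩ := hz
  have hΩ : Nonempty Q.Ω := by
    rw [← Cardinal.mk_ne_zero_iff]
    exact (lt_of_le_of_lt (zero_le) Q.K_lt).ne'
  obtain ⟨i0⟩ := hΩ
  let l : Lab Q := (ν, i0)
  have heb : ∀ g : Grp Q, Fixes g (below (l.1 : Stg Q)) → FEq (Name.act g e) e ⊤ :=
    fun g hg => hez g (fun i hi => hg i (hzν hi))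
  have htHS : (sys S).IsHS (tr e l) := hs_tr hB hF hR ⟨ν, hzν, hzc⟩ hez
  rw [hF.ex]
  intro q hq
  refine ⟨q, le_rfl, tr e l, htHS, ?_⟩
  have hv3' : ∀ i : Fin 3, (sys S).IsHS
      ((Fin.cons (tr e l) (Fin.cons e (Fin.cons r Fin.elim0)) :
        Fin 3 → Name (P0 Q × Cnd S)) i) := hv3 _ htHS
  unfold Fml.isTransversal
  rw [SymSys.Forces, SymSys.Forces, SymSys.Forces]
  -- elements of the transversal
  have htmem : ∀ (w : Name (P0 Q × Cnd S)) (q : P0 Q × Cnd S), FMem w (tr e l) q →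
      ∀ q1 ≤ q, ∃ r1 ≤ q1, ∃ (x v : RN Q) (A : S.U), IsA e l.1 x A ∧ (A, l, v) ∈ r1.2.1 ∧
        FEq w (rn S v) r1 := by
    intro w q hw q1 hq1
    unfold tr at hw
    rw [FMem] at hw
    obtain ⟨r1, hr1, j, hj, h1⟩ := hw q1 hq1
    obtain ⟨A, hA, hA'⟩ := j.2
    exact ⟨r1, hr1, j.1.1, j.1.2.1, A, hA, hj.2 hA', h1⟩
  constructor
  · intro w hw
    rw [hF.imp]
    intro q' hq' hmem
    show FMem w r q'
    apply hB.memDense
    intro q1 hq1
    obtain ⟨r1, hr1, x, v, A, _, _, h1⟩ := htmem w q' hmem q1 hq1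
    refine ⟨r1, hr1, hB.memCongr _ _ _ _ _ (hB.symm _ _ _ h1) (hB.refl _ _) ?_⟩
    exact hrn v r1 ((hr1.trans (hq1.trans hq')).trans hq)
  · intro x hx
    rw [hF.imp]
    intro q' hq' hxr
    have hxr' : FMem x r q' := hxr
    rw [hF.ex]
    intro q'' hq''
    have hq''0 : q'' ≤ p0 := (hq''.trans hq').trans hq
    have hxreal := (hmr q'' hq''0 x hx).1 (hB.memMono _ _ _ _ hxr' hq'')
    obtain ⟨d, hd, x0, hx0⟩ := hR.ex x q''.1 q''.2 hx hxreal
    obtain ⟨A, hA⟩ := exists_isA hG hC hB hF hR hN hzν hzc hez x0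
    obtain ⟨c', hc', hdc', v, hv⟩ := hTot Q S ⊤ d.1 d.2 A l (WithTop.coe_lt_top _) hA.1
    let r' : P0 Q × Cnd S := (q''.1, ⟨c', hc'⟩)
    have hr'd : r' ≤ (q''.1, d) := ⟨le_rfl, hdc'⟩
    have hr' : r' ≤ q'' := hr'd.trans ⟨le_rfl, hd⟩
    have hr'0 : r' ≤ p0 := hr'.trans hq''0
    have hxx0 : FEq x (rn S x0) r' := hB.mono _ _ _ _ hx0 hr'd
    have hx0v : R e (rn S x0) (rn S v) r' := val_mem hT hC hB hF hR hN hE heb hr'0 hA hv
    refine ⟨r', hr', rn S v, hR.hs v, ?_⟩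
    rw [SymSys.Forces, SymSys.Forces, SymSys.Forces]
    refine ⟨⟨?_, ?_⟩, ?_⟩
    · show FMem (rn S v) (tr e l) r'
      exact hB.elem (TI e l) (fun w => rn S w.1.2.1) (fun w => (⊤, w.1.2.2))
        ⟨(x0, v, ⟨c', hc'⟩), ⟨A, hA, hv⟩⟩ r' ⟨le_top, le_rfl⟩
    · rw [hS.relMem _ (fun i => Fin.cases (hR.hs v) (fun j => Fin.cases hx hv3' j) i)]
      show R e x (rn S v) r'
      exact R_congr hB (hB.symm _ _ _ hxx0) (hB.refl _ _) hx0v
    · intro w hw
      rw [hF.imp]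
      intro q2 hq2 hwt
      rw [SymSys.Forces] at hwt
      obtain ⟨h1, h2⟩ := hwt
      have h1' : FMem w (tr e l) q2 := h1
      rw [hS.relMem _ (fun i => Fin.cases hw
        (fun i => Fin.cases (hR.hs v) (fun j => Fin.cases hx hv3' j) i) i)] at h2
      have h2' : R e x w q2 := h2
      show FEq w (rn S v) q2
      apply hB.dense
      intro q3 hq3
      obtain ⟨r1, hr1, x1, v1, A1, hA1, hv1, h3⟩ := htmem w q2 h1' q3 hq3
      have hr12 : r1 ≤ q2 := hr1.trans hq3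
      have hr1' : r1 ≤ r' := hr12.trans hq2
      have hr10 : r1 ≤ p0 := hr1'.trans hr'0
      refine ⟨r1, hr1, ?_⟩
      have h4 : R e (rn S x1) (rn S v1) r1 := val_mem hT hC hB hF hR hN hE heb hr10 hA1 hv1
      have h5 : R e (rn S x0) (rn S v1) r1 :=
        R_congr hB (hB.mono _ _ _ _ hxx0 hr1') h3 (R_mono hB h2' hr12)
      have h6 : R e (rn S x0) (rn S x1) r1 :=
        hE.trans _ _ _ _ hr10 h5 (hE.symm _ _ _ hr10 h4)
      have hv' : (A, l, v) ∈ r1.2.1 := hr1'.2 hv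
      have h7 : v.Feq v1 r1.1 := val_eq hT hC hB hF hR hN hE heb hr10 hA hA1 hv' hv1 h6
      have h8 : FEq (rn S v) (rn S v1) r1 := (hR.feq v v1 r1.1 r1.2).2 h7
      exact hB.trans _ _ _ _ h3 (hB.symm _ _ _ h8)

end Pool.Agent.Helper27.SPR
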